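import Pool.Agent.H95.DR.Targets

/-!
# Board `dfx_modules`, row AF2: the twisted `L`-function in terms of the forms, real quadratic fields
-/

set_option autoImplicit false

open MeasureTheory Set Filter NumberField
open scoped Real nonZeroDivisors Matrix MatrixGroups
open Pool.Agent.H31.CN Pool.Agent.H89.FM Pool.Agent.H61.FM Pool.Agent.H89.FC Pool.Agent.H95.FC
open Pool.Agent.H89.DF Pool.Agent.H95.DR

namespace Pool.Agent.H64.DF

/-- the half plane without `1` is connected -/
theorem pre_half : IsPreconnected {s : ℂ | 0 < s.re ∧ s ≠ 1} := by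
  have hA : Convex ℝ {s : ℂ | 0 < s.re ∧ 0 < s.im} :=
    (convex_halfSpace_re_gt 0).inter (convex_halfSpace_im_gt 0)
  have hB : Convex ℝ {s : ℂ | 0 < s.re ∧ s.im < 0} :=
    (convex_halfSpace_re_gt 0).inter (convex_halfSpace_im_lt 0)
  have hC : Convex ℝ {s : ℂ | 1 < s.re} := convex_halfSpace_re_gt 1
  have hD : Convex ℝ {s : ℂ | 0 < s.re ∧ s.re < 1} :=
    (convex_halfSpace_re_gt 0).inter (convex_halfSpace_re_lt 1)
  have h1 : IsPreconnected ({s : ℂ | 0 < s.re ∧ 0 < s.im} ∪ {s : ℂ | 1 < s.re}) :=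
    IsPreconnected.union (⟨2, 1⟩ : ℂ) (by simp) (by simp) hA.isPreconnected hC.isPreconnected
  have h2 : IsPreconnected (({s : ℂ | 0 < s.re ∧ 0 < s.im} ∪ {s : ℂ | 1 < s.re}) ∪
      {s : ℂ | 0 < s.re ∧ s.im < 0}) :=
    IsPreconnected.union (⟨2, -1⟩ : ℂ) (by simp) (by simp) h1 hB.isPreconnected
  have h3 : IsPreconnected ((({s : ℂ | 0 < s.re ∧ 0 < s.im} ∪ {s : ℂ | 1 < s.re}) ∪
      {s : ℂ | 0 < s.re ∧ s.im < 0}) ∪ {s : ℂ | 0 < s.re ∧ s.re < 1}) :=
    IsPreconnected.union (⟨1 / 2, 1⟩ : ℂ) (by left; left; constructor <;> norm_num)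
      (by constructor <;> norm_num) h2 hD.isPreconnected
  convert h3 using 1
  ext s
  constructor
  · rintro ⟨h4, h5⟩
    rcases lt_trichotomy s.im 0 with h | h | h
    · exact Or.inl (Or.inr ⟨h4, h⟩)
    · rcases lt_trichotomy s.re 1 with h6 | h6 | h6
      · exact Or.inr ⟨h4, h6⟩
      · exact absurd (Complex.ext (by simpa using h6) (by simpa using h)) h5
      · exact Or.inl (Or.inl (Or.inr h6))
    · exact Or.inl (Or.inl (Or.inl ⟨h4, h⟩))
  · rintro (((⟨h4, h5⟩ | h4) | ⟨h4, h5⟩) | ⟨h4, h5⟩)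
    · exact ⟨h4, fun h => by rw [h] at h5; simp at h5⟩
    · have h4' : (1 : ℝ) < s.re := h4
      exact ⟨by linarith, fun h => by rw [h] at h4'; simp at h4'⟩
    · exact ⟨h4, fun h => by rw [h] at h5; simp at h5⟩
    · exact ⟨h4, fun h => by rw [h] at h5; simp at h5⟩

/-- functions equal for `Re s > 1` and holomorphic for `Re s > 0`, `s ≠ 1` are equal -/
theorem eq_of_quarter {A B : ℂ → ℂ} (hA : DifferentiableOn ℂ A {s : ℂ | 0 < s.re ∧ s ≠ 1})
    (hB : DifferentiableOn ℂ B {s : ℂ | 0 < s.re ∧ s ≠ 1})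
    (h : ∀ s : ℂ, 1 < s.re → A s = B s) (s : ℂ) (hs0 : 0 < s.re) (hs : s ≠ 1) : A s = B s := by
  have hopen : IsOpen {s : ℂ | 0 < s.re ∧ s ≠ 1} :=
    (isOpen_lt continuous_const Complex.continuous_re).inter isOpen_compl_singleton
  have hA' := hA.analyticOnNhd hopen
  have hB' := hB.analyticOnNhd hopen
  have h2 : (2 : ℂ) ∈ {s : ℂ | 0 < s.re ∧ s ≠ 1} := by
    constructor
    · simp
    · simp
  have he : A =ᶠ[nhds 2] B := by
    have ho : IsOpen {s : ℂ | 1 < s.re} := isOpen_lt continuous_const Complex.continuous_re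
    have hm : (2 : ℂ) ∈ {s : ℂ | 1 < s.re} := by
      change (1 : ℝ) < (2 : ℂ).re
      simp
    filter_upwards [ho.mem_nhds hm] with s hs
    exact h s hs
  exact hA'.eqOn_of_preconnected_of_eventuallyEq hB' pre_half h2 he ⟨hs0, hs⟩

theorem two_pi_ne : (2 * (π : ℂ)) ≠ 0 := by
  simp [Real.pi_ne_zero]

theorem pf_LF2r (hLF1r : T_LF1r) (hHOLr : T_HOLr) (hCRI : Pool.Agent.H89.DF.T_CRI)
    (hPBT : T_PBT) : T_LF2r := by
  classical
  intro K _ _ D f σ σ' κ ν ψ F hRQ hR hF R m n hn s hs0 hs1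
  have hf : 1 ≤ f := hR.pos
  have hbase : ((f : ℂ) ^ 2 * D) ≠ 0 := by
    have hD : (D : ℂ) ≠ 0 := by exact_mod_cast hRQ.pos.ne'
    have hfc : (f : ℂ) ≠ 0 := by exact_mod_cast hR.pos.ne'
    exact mul_ne_zero (pow_ne_zero 2 hfc) hD
  have hn1 : 1 ≤ n := Nat.one_le_iff_ne_zero.mpr hn.ne_zero
  refine eq_of_quarter (A := fun s => lc ψ n * (gM m.natAbs s * crr κ m ν s *
    ((f : ℂ) ^ 2 * D) ^ (s / 2) * F s)) (B := fun s => R.E κ m ν ψ n s) ?_ ?_ ?_ s hs0 hs1
  · apply DifferentiableOn.const_mul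
    apply DifferentiableOn.mul
    · apply DifferentiableOn.mul
      · apply DifferentiableOn.mul
        · intro z hz
          apply DifferentiableAt.differentiableWithinAt
          unfold gM
          have h1 : DifferentiableAt ℂ (fun z : ℂ => Complex.Gamma (z + m.natAbs)) z := by
            apply DifferentiableAt.comp (g := Complex.Gamma)
            · apply Complex.differentiableAt_Gamma
              intro j hj
              have h2 := congrArg Complex.re hj
              simp only [Complex.add_re, Complex.natCast_re, Complex.neg_re] at h2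
              have h3 : (0 : ℝ) ≤ (m.natAbs : ℝ) := Nat.cast_nonneg _
              have h4 : (0 : ℝ) ≤ (j : ℝ) := Nat.cast_nonneg _
              have h5 := hz.1
              linarith
            · fun_prop
          have h2 : DifferentiableAt ℂ (fun z : ℂ => (2 * (π : ℂ)) ^ (-(z + m.natAbs))) z := by
            apply DifferentiableAt.const_cpow
            · fun_prop
            · exact Or.inl two_pi_ne
          exact ((differentiableAt_id.mul (differentiableAt_id.sub_const 1)).mul h1).mul h2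
        · exact (hCRI κ m ν).1.mono fun z hz => hz.1
      · intro z _
        exact ((differentiableAt_id.div_const 2).const_cpow
          (Or.inl hbase)).differentiableWithinAt
    · exact hF.1.mono fun z hz => hz.2
  · apply Differentiable.differentiableOn
    unfold DD.E
    apply Differentiable.const_mul
    apply Differentiable.fun_sum
    intro j hj
    apply Differentiable.const_mul
    have hjT : j.2 ∈ R.T j.1 := by
      unfold DD.J at hj
      exact (Finset.mem_sigma.1 hj).2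
    obtain ⟨c, V⟩ := j
    change V ∈ R.T c at hjT
    change Differentiable ℂ fun s => ∫ τ in (0 : ℝ)..R.P, R.G κ m s n c V τ *
      Complex.exp (-(((ν * τ : ℝ) : ℂ) * Complex.I))
    have hPB : PB σ σ' (Ideal.absNorm (R.I c : Ideal (𝓞 K))) (R.v₁ c V) (R.v₂ c V)
        (fl f (R.Q c) V (R.W c V)) :=
      ((hPBT K σ σ').2.1 _ _ _ _ f V (R.W c V)
        ((hPBT K σ σ').1 _ _ _ _ (nonZeroDivisors.coe_ne_zero (R.I c)) (R.ob c)) hf
        ((R.lt c).one V hjT)).1
    have hHOL := hHOLr K σ σ' _ _ _ _ hPB κ m n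
    have heq : (fun s : ℂ => ∫ τ in (0 : ℝ)..R.P, R.G κ m s n c V τ *
        Complex.exp (-(((ν * τ : ℝ) : ℂ) * Complex.I))) =
        fun s : ℂ => ∑ L ∈ (Ls n).filter (fun L => Dv n L (R.fo c V)),
          ∫ τ in (0 : ℝ)..R.P, Fr σ σ' κ m s n L (R.v₁ c V) (R.v₂ c V) τ *
            Complex.exp (-(((ν * τ : ℝ) : ℂ) * Complex.I)) := by
      funext s
      rw [← intervalIntegral.integral_finsetSum]
      · congr 1
        funext τ
        unfold DD.G
        rw [Finset.sum_mul]
      · intro L hL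
        have hL1 := (Finset.mem_filter.1 hL).1
        apply Continuous.intervalIntegrable
        exact ((hHOL L hn1 hL1).1 s).mul (by fun_prop)
    rw [heq]
    apply Differentiable.fun_sum
    intro L hL
    have hL1 := (Finset.mem_filter.1 hL).1
    exact (hHOL L hn1 hL1).2.2 ν R.P
  · intro z hz
    exact hLF1r K D f σ σ' κ ν ψ hRQ hR R m n hn z (F z) hz (hF.2 z hz)

end Pool.Agent.H64.DF
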